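import Pool.Agent.MWGN.StmtsC

/-!
# Row CLF of block MWGN: closure properties of the crossing hull pentagon
-/

set_option autoImplicit false

namespace Pool.Agent.MWGN.H19

open Pool.Agent.Helper14_MV Pool.Agent.Helper2_MV Pool.Agent.MWGN
open Pool.Agent.MWK (pre Gw)

theorem gh_fac (g h : ℕ → List ℕ) : ∀ (N i : ℕ), i < N →
    ∃ u v, gh g h N = u ++ (g i ++ (h i ++ v))
  | 0, i, hi => by omega
  | N + 1, i, hi => by
    rw [gh_succ]
    by_cases h1 : i = N
    · subst h1
      exact ⟨gh g h i, [], by simp⟩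
    · obtain ⟨u, v, hv⟩ := gh_fac g h N i (by omega)
      rw [hv]
      exact ⟨u, v ++ (g N ++ h N), by simp⟩

/-- a letter with two occurrences in a content has two occurrences in the middle part -/
theorem count_h {g h : ℕ → List ℕ} {N i c : ℕ} (hi : i < N) (h2 : 2 ≤ (h i).count c) :
    2 ≤ (gh g h N).count c := by
  obtain ⟨u, v, hv⟩ := gh_fac g h N i hi
  rw [hv]
  simp only [List.count_append]
  omega

theorem two_mid {A M R e : List ℕ} {g h : ℕ → List ℕ} {N : ℕ} (hM : M = gh g h N)
    (hR : ∀ i < N, ∃ R1 R2, R = R1 ++ (g i ++ R2)) (hh : ∀ i < N, ∀ c ∈ h i, 2 ≤ M.count c) :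
    ∀ c ∈ M, 2 ≤ (A ++ ((e ++ e) ++ (M ++ ((e ++ e) ++ R)))).count c := by
  intro c hc
  simp only [List.count_append]
  have hc' := hc
  rw [hM] at hc'
  obtain ⟨i, hi, h1⟩ := mem_gh.1 hc'
  rcases h1 with h1 | h1
  · obtain ⟨R1, R2, hRR⟩ := hR i hi
    have e1 : 0 < M.count c := List.count_pos_iff.mpr hc
    have e2 : 0 < (g i).count c := List.count_pos_iff.mpr h1
    have e3 : R.count c = R1.count c + ((g i).count c + R2.count c) := by
      rw [hRR]
      simp only [List.count_append]
    omega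
  · have := hh i hi c h1
    omega

theorem dp_two (f : ℕ → List ℕ) (a s : Bool) (i c : ℕ) (h : c ∈ dp f a s i) :
    2 ≤ (dp f a s i).count c := by
  unfold dp at h ⊢
  simp only [List.mem_append] at h
  simp only [List.count_append]
  rcases h with h | h | h | h
  · have := List.count_pos_iff.mpr h
    omega
  · have := List.count_pos_iff.mpr h
    omega
  · cases a with
    | false => exact absurd h (by simp)
    | true =>
      simp only [if_true, List.mem_append, or_self] at h
      have := List.count_pos_iff.mpr h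
      simp only [if_true, List.count_append]
      omega
  · cases s with
    | false => exact absurd h (by simp)
    | true =>
      simp only [if_true, List.mem_append, or_self] at h
      have := List.count_pos_iff.mpr h
      simp only [if_true, List.count_append]
      omega

theorem dbl_two {e : List ℕ} {c : ℕ} (h : c ∈ e ++ e) : 2 ≤ (e ++ e).count c := by
  rw [List.mem_append, or_self] at h
  have := List.count_pos_iff.mpr h
  rw [List.count_append]
  omega

/-- contents of the first form -/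
def hY (f : ℕ → List ℕ) (r : ℕ) (a s : Bool) : ℕ → List ℕ := fun i => if i < r then dp f a s i else
  if i = r then f 0 ++ f 0 else []

/-- contents of the second form -/
def hX (f : ℕ → List ℕ) (r : ℕ) (a s : Bool) : ℕ → List ℕ := fun i => if i = 0 then f 1 ++ f 1 else
  if i ≤ r then dp f a s (i - 1) else []

theorem hY_two (f : ℕ → List ℕ) (r : ℕ) (a s : Bool) (i c : ℕ) (h : c ∈ hY f r a s i) :
    2 ≤ (hY f r a s i).count c := by
  unfold hY at h ⊢
  split_ifs at h ⊢
  · exact dp_two f a s i c h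
  · exact dbl_two h
  · exact absurd h List.not_mem_nil

theorem hX_two (f : ℕ → List ℕ) (r : ℕ) (a s : Bool) (i c : ℕ) (h : c ∈ hX f r a s i) :
    2 ≤ (hX f r a s i).count c := by
  unfold hX at h ⊢
  split_ifs at h ⊢
  · exact dbl_two h
  · exact dp_two f a s (i - 1) c h
  · exact absurd h List.not_mem_nil

theorem clf (h1 : FofStmt) (h2 : KfiStmt) (h3 : StyStmt) (h4 : StxStmt) (h5 : StrStmt) :
    ClfStmt := by
  intro τ r hr hτ f p q
  obtain ⟨R0, hR, hYf, hXf, hIY, hIX⟩ := h1 τ r hr hτ f
  -- the first form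
  have fY : ∀ a s : Bool, p ++ (wf τ r a s).flatMap f ++ q =
      (p ++ (f 0 ++ (f 0 ++ f (NF.L 0)))) ++ ((f 1 ++ f 1) ++
        (gh (fun i => f (NF.L (i + 1))) (hY f r a s) (r + 2) ++ ((f 1 ++ f 1) ++ (R0 ++ q)))) := by
    intro a s
    rw [hYf a s]
    simp only [List.append_assoc]
    rfl
  -- the second form
  have fX : ∀ a s : Bool, p ++ (wf τ r a s).flatMap f ++ q =
      p ++ ((f 0 ++ f 0) ++ (gh (fun i => f (NF.L i)) (hX f r a s) (r + 2) ++ ((f 0 ++ f 0) ++
        (f (NF.L (r + 2)) ++ (f 1 ++ (f 1 ++ (R0 ++ q))))))) := by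
    intro a s
    rw [hXf a s]
    simp only [List.append_assoc]
    rfl
  have hRY : ∀ i < r + 2, ∃ R1 R2, R0 ++ q = R1 ++ (f (NF.L (i + 1)) ++ R2) := by
    intro i hi
    obtain ⟨R1, R2, hRR⟩ := hR (i + 1) (by omega)
    exact ⟨R1, R2 ++ q, by rw [hRR]; simp only [List.append_assoc]⟩
  have hRX : ∀ i < r + 2, ∃ R1 R2, f (NF.L (r + 2)) ++ (f 1 ++ (f 1 ++ (R0 ++ q))) =
      R1 ++ (f (NF.L i) ++ R2) := by
    intro i hi
    obtain ⟨R1, R2, hRR⟩ := hR i (by omega)
    exact ⟨f (NF.L (r + 2)) ++ (f 1 ++ (f 1 ++ R1)), R2 ++ q, by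
      rw [hRR]
      simp only [List.append_assoc]⟩
  have hhY : ∀ a s : Bool, ∀ i < r + 2, ∀ c ∈ hY f r a s i,
      2 ≤ (gh (fun i => f (NF.L (i + 1))) (hY f r a s) (r + 2)).count c :=
    fun a s i hi c hc => count_h hi (hY_two f r a s i c hc)
  have hhX : ∀ a s : Bool, ∀ i < r + 2, ∀ c ∈ hX f r a s i,
      2 ≤ (gh (fun i => f (NF.L i)) (hX f r a s) (r + 2)).count c :=
    fun a s i hi c hc => count_h hi (hX_two f r a s i c hc)
  have hr1 : ∀ a s : Bool, hY f r a s r = f 0 ++ f 0 := by
    intro a s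
    unfold hY
    rw [if_neg (lt_irrefl r), if_pos rfl]
  have hX0 : ∀ a s : Bool, hX f r a s 0 = f 1 ++ f 1 := by
    intro a s
    unfold hX
    rw [if_pos rfl]
  have iY : ∀ s : Bool, Ins (f 1 ++ f 1)
      (gh (fun i => f (NF.L (i + 1))) (hY f r false s) (r + 2))
      (gh (fun i => f (NF.L (i + 1))) (hY f r true s) (r + 2)) r := hIY
  have iX : ∀ a : Bool, Ins (f 0 ++ f 0)
      (gh (fun i => f (NF.L i)) (hX f r a false) (r + 2))
      (gh (fun i => f (NF.L i)) (hX f r a true) (r + 2)) r := hIX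
  -- insertion of `x x`: `Ky`
  have kyX : ∀ a : Bool, Ky τ r (p ++ (wf τ r a false).flatMap f ++ q) →
      Ky τ r (p ++ (wf τ r a true).flatMap f ++ q) := by
    intro a
    refine h4 τ r hr (f 0) (f 1) p _ _ _ _ _ r (fun i => f (NF.L i)) (hX f r a false) (iX a)
      (fX a false) (fX a true) ?_ rfl (hX0 a false) ?_ hRX (hhX a false)
    · rw [fX a false]
      exact two_mid rfl hRX (hhX a false)
    · intro c hc
      exact List.mem_append_right _ (List.mem_append_left _ hc)
  refine ⟨?_, ?_, ?_⟩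
  · intro s
    constructor
    · refine h3 τ r hr (f 0) (f 1) _ _ _ _ _ _ r (fun i => f (NF.L (i + 1))) (hY f r false s)
        (iY s) (fY false s) (fY true s) ?_ rfl (hr1 false s) ?_ hRY (hhY false s)
      · rw [fY false s]
        exact two_mid rfl hRY (hhY false s)
      · intro c hc
        exact List.mem_append_right _ (List.mem_append_left _ hc)
    · exact (h2 τ r (f 1) _ _ _ _ r (iY s) _ _ (fY false s) (fY true s)).2.1
  · intro a
    exact ⟨kyX a, (h2 τ r (f 0) _ _ _ _ r (iX a) _ _ (fX a false) (fX a true)).2.2⟩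
  · constructor
    · rintro ⟨k1, k2⟩
      refine ⟨?_, kyX true k2⟩
      refine h5 τ r hr (f 0) (f 1) p _ _ _ _ _ r (fun i => f (NF.L i)) (hX f r true false)
        (iX true) (fX true false) (fX true true) ?_ rfl (hX0 true false) ?_ hRX
        (hhX true false) k1 k2
      · rw [fX true false]
        exact two_mid rfl hRX (hhX true false)
      · intro c hc
        unfold hX
        rw [if_neg one_ne_zero, if_pos hr]
        unfold dp
        exact List.mem_append_right _ (List.mem_append_right _ (List.mem_append_left _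
          (List.mem_append_left _ hc)))
    · have hk := h2 τ r (f 0) _ _ _ _ r (iX true) _ _ (fX true false) (fX true true)
      rintro ⟨k1, k2⟩
      exact ⟨hk.2.1 k1, hk.2.2 k2⟩

end Pool.Agent.MWGN.H19
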