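import Pool.Agent.MWGN.StmtsB

/-!
# Row MCV of block MWGN: the main case, covering
-/

set_option autoImplicit false

namespace Pool.Agent.MWGN.H19

open Pool.Agent.Helper14_MV Pool.Agent.Helper2_MV Pool.Agent.MWGN
open Pool.Agent.MWK (pre Gw not_mem_pre pre_append pre_append_mem pre_of_count)

theorem gh_split (g h : ℕ → List ℕ) : ∀ (N i : ℕ), i < N →
    ∃ v, gh g h N = gh g h i ++ (g i ++ (h i ++ v))
  | 0, i, hi => by omega
  | N + 1, i, hi => by
    rw [gh_succ]
    by_cases h1 : i = N
    · subst h1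
      exact ⟨[], by simp⟩
    · obtain ⟨v, hv⟩ := gh_split g h N i (by omega)
      rw [hv]
      exact ⟨v ++ (g N ++ h N), by simp⟩

theorem mcv (h1 : MpoStmt) : McvStmt := by
  intro ν m nc hm1 hm2 p X Y F G H w hw hG2 hWC hx hy g h hG hpin hcon hA hB
  obtain ⟨-, -, hL, hC⟩ := h1 ν m nc hm2 p X Y F G H w hw hG2 hWC hx hy
  have hcount : ∀ i < m + 2, G.count (ν.L i) = 1 := fun i hi => (hL i (by omega)).2.2.2.2.1
  have hmem : ∀ i < m + 2, ν.L i ∈ G := by
    intro i hi
    rw [← List.count_pos_iff, hcount i hi]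
    exact Nat.one_pos
  have hord : ∀ i j, i < j → j < m + 2 → ν.L i ∈ pre G (ν.L j) := by
    intro i j hij hj
    by_cases hi : i < nc
    · obtain ⟨-, c1, c2⟩ := hC i hi
      apply pre_of_count (x := ν.C i) (hmem i (by omega))
      have e1 : (pre G (ν.L i)).count (ν.C i) = 0 := List.count_eq_zero.mpr (c1 i le_rfl)
      have e2 : 0 < (pre G (ν.L j)).count (ν.C i) :=
        List.count_pos_iff.mpr (c2 j hij (by omega))
      omega
    · have e1 : nc = m := by omega
      have e2 : i = m := by omega
      have e3 : j = m + 1 := by omega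
      subst e2
      subst e3
      exact hB e1
  have hnh : ∀ i < m + 2, ∀ j < m + 2, ν.L j ∉ h i := by
    intro i hi j hj hm
    have := hcon i hi _ hm
    have := hcount j hj
    omega
  have hnu : ∀ i < m + 2, ∀ j < m + 2, ν.L j ∈ g i → ν.L j ∉ gh g h i := by
    intro i hi j hj hm hu
    obtain ⟨v, hv⟩ := gh_split g h (m + 2) i hi
    have e1 := hcount j hj
    rw [hG, hv, List.count_append, List.count_append] at e1
    have e2 : 0 < (gh g h i).count (ν.L j) := List.count_pos_iff.mpr hu
    have e3 : 0 < (g i).count (ν.L j) := List.count_pos_iff.mpr hm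
    omega
  have hpre : ∀ i < m + 2, ∀ j < m + 2, ν.L j ∈ g i →
      pre G (ν.L j) = gh g h i ++ pre (g i) (ν.L j) := by
    intro i hi j hj hm
    obtain ⟨v, hv⟩ := gh_split g h (m + 2) i hi
    rw [hG, hv, pre_append (hnu i hi j hj hm), pre_append_mem hm]
  have hng : ∀ i < m + 2, ∀ j j', j < j' → j' < m + 2 → ¬ (ν.L j ∈ g i ∧ ν.L j' ∈ g i) := by
    rintro i hi j j' hjj hj' ⟨k1, k2⟩
    by_cases hj : j < nc
    · obtain ⟨c0, c1, c2⟩ := hC j hj
      have c1' := c1 j le_rfl
      have c2' := c2 j' hjj (by omega)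
      rw [hpre i hi j (by omega) k1] at c1'
      rw [hpre i hi j' hj' k2] at c2'
      rcases List.mem_append.mp c2' with h2 | h2
      · exact c1' (List.mem_append_left _ h2)
      · exact c0 (hpin i hi _ ((Pool.Agent.MWK.pre_prefix (g i) (ν.L j')).subset h2))
    · have e1 : nc = m := by omega
      have e2 : j = m := by omega
      have e3 : j' = m + 1 := by omega
      subst e2
      subst e3
      exact hA e1 i hi ⟨k1, k2⟩
  have hcov : ∀ i < m + 2, ν.L i ∈ g i := by
    apply cov (g := g) (h := h) (L := ν.L) (N := m + 2)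
    · intro i hi
      rw [← hG]
      exact hcount i hi
    · intro i j hij hj
      rw [← hG]
      exact hord i j hij hj
    · exact hnh
    · exact hng
  refine ⟨hcov, ?_⟩
  intro i hi
  obtain ⟨c0, c1, c2⟩ := hC i hi
  have c1' := c1 i le_rfl
  have c2' := c2 (i + 1) (by omega) (by omega)
  rw [hpre i (by omega) i (by omega) (hcov i (by omega))] at c1'
  rw [hpre (i + 1) (by omega) (i + 1) (by omega) (hcov (i + 1) (by omega)), gh_succ] at c2'
  rcases List.mem_append.mp c2' with h2 | h2
  · rcases List.mem_append.mp h2 with h2 | h2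
    · exact absurd (List.mem_append_left _ h2) c1'
    · rcases List.mem_append.mp h2 with h2 | h2
      · exact absurd (hpin i (by omega) _ h2) c0
      · exact h2
  · exact absurd (hpin (i + 1) (by omega) _
      ((Pool.Agent.MWK.pre_prefix (g (i + 1)) (ν.L (i + 1))).subset h2)) c0

end Pool.Agent.MWGN.H19
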